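import Pool.Agent.H445.EllG
import Pool.Graph.R_seed8.Y776.EtProof
import Pool.Graph.R_seed8.Y776.ET.Fin

/-!
# MP_8da9ea_nt: the exact dimension of the set of the counterexamples for a given lattice

`L` is a pair of periods `ω₁, ω₂` (independent over `ℝ`), `L.lattice = ℤ ω₁ + ℤ ω₂ = Ω`, and
`℘[L]`, `L.g₂`, `L.g₃` are Mathlib's Weierstrass function and invariants. The definitions of
`ζ`, `k L` (the field `ℚ ⊗ End(ℂ / Ω)`), `T₀ = 2πi ℚ`, `P₀ L = Ω ⊗ ℚ`, `trd` (transcendence degree
over `ℚ`), `gen L t p` (the numbers `g₂, g₃, ω₁, ω₂, η₁, η₂, t, e^t, p, ℘(p), ζ(p)`) and `dimMod`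
(dimension of the span modulo a subspace) are in `Pool.Agent.Y776.EtDefs`.

The conjecture says that `trdeg K(ω₁, ω₂, η₁, η₂) ≥ dim ⟨t⟩ + 4 / [k : ℚ] + 2 dim ⟨p⟩`,
`K = ℚ(g₂, g₃, t, e^t, p, ℘(p), ζ(p))`, for all tuples `t` of complex numbers and all tuples `p` of
complex numbers outside `Ω`, where `⟨t⟩` is the `ℚ`-span modulo `2πi ℚ` and `⟨p⟩` is the `k`-span
modulo `Ω ⊗ ℚ`. Let `V(n,s,m) ⊆ ℂ^n × ℂ^s` be the set of the pairs `(p, t)` (dependent or not) for
which the left hand side is smaller than the right hand side by at least `m`. The conjecture for the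
lattice says that `V(n,s,m)` is empty for all `n`, `s` and all `m ≥ 1`. For every lattice we prove the
following unconditional relation between the size of these sets and the existence of counterexamples
of larger defect.

* The Hausdorff dimension of `V(n,s,m)` is exactly `2 d`, where `d` is the largest number of the form
  `b + a`, `b ≤ n`, `a ≤ s`, for which `V(n - b, s - a, m + b + a)` is not empty (`0` if there is
  none). For `m ≥ 1`: `d ≤ (s + 2 n + 4 / [k : ℚ] - m - 1) / 2`.
* `V(n,s,m)` is countable if and only if `V(n - 1, s, m + 1)` (for `n ≥ 1`) and `V(n, s - 1, m + 1)`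
  (for `s ≥ 1`) are empty.
* For `d ≥ 1`, the conjecture with error `d`, that is the inequality
  `trdeg K(ω₁, ω₂, η₁, η₂) + d ≥ dim ⟨t⟩ + 4 / [k : ℚ] + 2 dim ⟨p⟩` for all `t` and `p`, holds for the
  lattice if and only if for all `n`, `s` the set of all counterexamples `V(n,s,1)` has Hausdorff
  dimension at most `2 (d - 1)`. For `d = 1`: the error is at most one if and only if for all `n`, `s`
  there are only countably many counterexamples.

## The proof (in `Pool.Agent.H445`)

Let `K` be a countable field which is closed under everything in sight (`Pool.Agent.Y685`). At a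
tuple `(p, t)` let `δ` be the dimension of the space of the directions which are compatible with all
the algebraic relations over `K`. The tuples with a given `δ` have Hausdorff dimension at most `2 δ`
(`DimB`). Ax's theorem, applied to a chain of derivations, gives the rank `2 n' + s' + δ` over `K` for
the `n'` points and `s'` exponents outside `K` (`EllB`), so that the points and exponents in `K` are a
counterexample of defect `m + δ` (`EllC`). Algebraic points and exponents may be added (`EllD`).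
Conversely, generic points and exponents may be added to a counterexample (`EllE`). Dependent tuples
are countably many affine images of independent ones (`EllG`).
-/

set_option autoImplicit false

open Set Module
open scoped PeriodPair

noncomputable section

namespace Pool.Agent.Results.MP_8da9ea_nt.DimensionFormula

open Pool.Agent.Y776.Et (ζ k T₀ P₀ trd gen dimMod gen_GA rank_finite gen_finite trd_of_rank)
open Pool.Agent.H445 (VM SM LevM BaseM FailM dimV countableV mem_LevM LevM_bdd LevM_down VM_nonempty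
  dimQ lowerM SM_subset_VM mem_SM SM_nonempty one_le_rank alg_bot)
open Pool.Agent.TH813.Ell (kL P₁ P₂)
open Pool.Agent.Y685 (EP clo GenL subset_clo)
open Pool.Agent.Y776 (ET GA)

/-- The pairs `(p, t)` of `n` points outside the lattice and `s` exponents for which
`trdeg K(ω₁, ω₂, η₁, η₂) + m ≤ dim ⟨t⟩ + 4 / [k : ℚ] + 2 dim ⟨p⟩`. -/
def Viol (L : PeriodPair) (n s m : ℕ) : Set ((Fin n → ℂ) × (Fin s → ℂ)) :=
  {w | (∀ i, w.1 i ∉ L.lattice) ∧
    trd ℚ (gen L w.2 w.1) + m ≤
      ((dimMod T₀ w.2 + 4 / finrank ℚ (k L) + 2 * dimMod (P₀ L) w.1 : ℕ) : Cardinal)}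

/-- The largest `d = b + a` such that there are `n - b` points and `s - a` exponents which violate the
inequality by at least `m + d` (zero if there is none). -/
def level (L : PeriodPair) (n s m : ℕ) : ℕ :=
  sSup {d | ∃ b a : ℕ, b ≤ n ∧ a ≤ s ∧ b + a = d ∧ (Viol L (n - b) (s - a) (m + d)).Nonempty}

theorem FR_bot : Pool.Agent.Y685.FR ℚ = ⊥ := by
  rw [eq_bot_iff]
  rintro _ ⟨q, rfl⟩
  exact IntermediateField.mem_bot.2 ⟨q, rfl⟩

theorem rank_iff {S : Set ℂ} (hS : S.Finite) (m N : ℕ) :
    (Pool.Agent.TH813.Rel.MK (⊥ : IntermediateField ℚ ℂ)).eRk S + m ≤ ((N : ℕ) : ℕ∞) ↔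
      trd ℚ S + m ≤ ((N : ℕ) : Cardinal) := by
  obtain ⟨g, hg⟩ := rank_finite (K := ℚ) hS
  rw [trd_of_rank hg, ← FR_bot, Pool.Agent.Y685.MK_FR ℚ, hg]
  norm_cast

variable {L : PeriodPair} {n s m : ℕ}

/-- the set of the pairs as a set of vectors -/
def V (L : PeriodPair) (n s m : ℕ) : Set (Fin (n + s) → ℂ) :=
  VM L (GenL L) (P₂ L) P₁ (4 / finrank ℚ (kL L)) n s m

theorem base (L : PeriodPair) : BaseM L (GenL L) (P₂ L) P₁ :=
  ⟨Pool.Agent.Y685.GenL_finite, subset_clo (by left; rfl), subset_clo (by right; left; rfl),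
    Pool.Agent.TH813.Ell.fd_P₂ L, Pool.Agent.TH813.Ell.fd_P₁⟩

/-- the two components of a vector -/
def split (n s : ℕ) : (Fin (n + s) → ℂ) →L[ℂ] (Fin n → ℂ) × (Fin s → ℂ) :=
  (ContinuousLinearMap.pi fun i => ContinuousLinearMap.proj (Fin.castAdd s i)).prod
    (ContinuousLinearMap.pi fun i => ContinuousLinearMap.proj (Fin.natAdd n i))

/-- the vector with given components -/
def join (n s : ℕ) : (Fin n → ℂ) × (Fin s → ℂ) →L[ℂ] (Fin (n + s) → ℂ) :=
  ContinuousLinearMap.pi (Fin.addCases
    (fun i => (ContinuousLinearMap.proj i).comp (ContinuousLinearMap.fst ℂ _ _))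
    (fun i => (ContinuousLinearMap.proj i).comp (ContinuousLinearMap.snd ℂ _ _)))

theorem join_split (w : Fin (n + s) → ℂ) : join n s (split n s w) = w := by
  funext i
  refine Fin.addCases (fun i => ?_) (fun i => ?_) i
  · simp [join, split]
  · simp [join, split]

theorem split_join (w : (Fin n → ℂ) × (Fin s → ℂ)) : split n s (join n s w) = w := by
  refine Prod.ext (funext fun i => ?_) (funext fun i => ?_)
  · simp [join, split]
  · simp [join, split]

theorem mem_V {w : Fin (n + s) → ℂ} : w ∈ V L n s m ↔ split n s w ∈ Viol L n s m := by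
  change (_ ∧ _) ↔ (_ ∧ _)
  refine and_congr_right fun hp => ?_
  have hp' : ∀ i, (split n s w).1 i ∉ L.lattice := hp
  rw [gen_GA _ hp', ← rank_iff (Pool.Agent.Y776.GA_finite _ _)]
  rfl

theorem Viol_eq : Viol L n s m = split n s '' V L n s m := by
  ext w
  constructor
  · intro hw
    refine ⟨join n s w, ?_, split_join w⟩
    rw [mem_V, split_join]
    exact hw
  · rintro ⟨u, hu, rfl⟩
    exact mem_V.1 hu

theorem V_eq : V L n s m = join n s '' Viol L n s m := by
  ext w
  constructor
  · intro hw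
    exact ⟨split n s w, mem_V.1 hw, join_split w⟩
  · rintro ⟨u, hu, rfl⟩
    rw [mem_V, split_join]
    exact hu

theorem nonempty_iff : (Viol L n s m).Nonempty ↔ (V L n s m).Nonempty := by
  rw [Viol_eq, Set.image_nonempty]

theorem dimH_eq : dimH (Viol L n s m) = dimH (V L n s m) := by
  apply le_antisymm
  · rw [Viol_eq]
    exact (split n s).lipschitz.dimH_image_le _
  · conv_lhs => rw [V_eq]
    exact (join n s).lipschitz.dimH_image_le _

theorem countable_eq : (Viol L n s m).Countable ↔ (V L n s m).Countable := by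
  constructor
  · intro h
    rw [V_eq]
    exact h.image _
  · intro h
    rw [Viol_eq]
    exact h.image _

theorem Lev_eq (L : PeriodPair) (n s m : ℕ) :
    LevM L (GenL L) (P₂ L) P₁ (4 / finrank ℚ (kL L)) n s m =
    {d | ∃ b a : ℕ, b ≤ n ∧ a ≤ s ∧ b + a = d ∧ (Viol L (n - b) (s - a) (m + d)).Nonempty} := by
  ext d
  rw [mem_LevM (base L)]
  simp only [Set.mem_ofPred_eq, nonempty_iff]
  rfl

theorem dim_eq (L : PeriodPair) (n s m : ℕ) : dimH (Viol L n s m) = (2 * level L n s m : ℕ) := by
  rw [dimH_eq, level, ← Lev_eq]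
  exact dimV (base L)

theorem lower {d : ℕ} (hd : d ∈ {d | ∃ b a : ℕ, b ≤ n ∧ a ≤ s ∧ b + a = d ∧
    (Viol L (n - b) (s - a) (m + d)).Nonempty}) : ((2 * d : ℕ) : ENNReal) ≤ dimH (Viol L n s m) := by
  rw [← Lev_eq] at hd
  rw [dimH_eq]
  exact (lowerM (base L) hd).trans (dimH_mono SM_subset_VM)

/-- the number `2 π i` is transcendental -/
theorem bound (hm : (Viol L n s m).Nonempty) : m + 1 ≤ s + 4 / finrank ℚ (kL L) + 2 * n := by
  rw [nonempty_iff] at hm
  obtain ⟨w, hw⟩ := (VM_nonempty (base L)).1 hm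
  have h1 := (mem_SM.1 hw).rk
  have h2 : 1 ≤ (Pool.Agent.TH813.Rel.MK (⊥ : IntermediateField ℚ ℂ)).eRk
      (GenL L ∪ (ET (fun i => w (Fin.natAdd n i)) ∪ EP L (fun i => w (Fin.castAdd s i)))) := by
    have h3 : 1 ≤ (Pool.Agent.TH813.Rel.MK (⊥ : IntermediateField ℚ ℂ)).eRk
        {Pool.Agent.Y685.tpi, Complex.exp Pool.Agent.Y685.tpi} := by
      refine one_le_rank alg_bot (x := Pool.Agent.Y685.tpi) ?_ (by simp) (by simp)
      unfold Pool.Agent.Y685.tpi
      simp [Real.pi_ne_zero]
    refine h3.trans (Pool.Agent.TH813.Rel.rk_le_of_subset_cl ?_)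
    intro x hx
    rw [← Pool.Agent.Y685.mem_clo_iff]
    intro δ _ hS
    rcases hx with rfl | rfl
    · exact Pool.Agent.Y685.kill_tpi (L := L) fun x hx => hS x (Or.inl hx)
    · have : Complex.exp Pool.Agent.Y685.tpi = 1 := Complex.exp_two_pi_mul_I
      rw [this]
      exact δ.map_one_eq_zero
  have h3 : ((1 + m : ℕ) : ℕ∞) ≤ ((s + 2 * n + 4 / finrank ℚ (kL L) : ℕ) : ℕ∞) := by
    rw [Nat.cast_add, Nat.cast_one]
    exact (add_le_add h2 le_rfl).trans h1
  have h4 : 1 + m ≤ s + 2 * n + 4 / finrank ℚ (kL L) := by exact_mod_cast h3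
  omega

theorem level_le (L : PeriodPair) (n s : ℕ) {m : ℕ} :
    level L n s m ≤ (s + 2 * n + 4 / finrank ℚ (k L) - m - 1) / 2 := by
  rcases Set.eq_empty_or_nonempty {d | ∃ b a : ℕ, b ≤ n ∧ a ≤ s ∧ b + a = d ∧
    (Viol L (n - b) (s - a) (m + d)).Nonempty} with h | h
  · rw [level, h, csSup_empty]
    exact Nat.zero_le _
  · have hb : BddAbove {d | ∃ b a : ℕ, b ≤ n ∧ a ≤ s ∧ b + a = d ∧
        (Viol L (n - b) (s - a) (m + d)).Nonempty} := by
      rw [← Lev_eq]
      exact LevM_bdd
    obtain ⟨b, a, h1, h2, h3, h4⟩ := Nat.sSup_mem h hb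
    have h5 := bound h4
    change b + a = level L n s m at h3
    change m + level L n s m + 1 ≤ (s - a) + 4 / finrank ℚ (k L) + 2 * (n - b) at h5
    omega

theorem countable_iff : (Viol L n s m).Countable ↔ (1 ≤ n → Viol L (n - 1) s (m + 1) = ∅) ∧
    (1 ≤ s → Viol L n (s - 1) (m + 1) = ∅) := by
  rw [countable_eq, V, countableV (base L), Lev_eq]
  constructor
  · intro h
    refine ⟨fun hn => ?_, fun hs => ?_⟩
    · by_contra hne
      exact h ⟨1, 0, hn, Nat.zero_le _, rfl, nonempty_iff_ne_empty.2 hne⟩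
    · by_contra hne
      exact h ⟨0, 1, Nat.zero_le _, hs, rfl, nonempty_iff_ne_empty.2 hne⟩
  · rintro ⟨h1, h2⟩ ⟨b, a, hb, ha, hab, h3⟩
    rcases Nat.eq_zero_or_pos b with rfl | hb0
    · obtain rfl : a = 1 := by omega
      rw [Nat.sub_zero, h2 ha] at h3
      exact not_nonempty_empty h3
    · obtain ⟨rfl, rfl⟩ : b = 1 ∧ a = 0 := by omega
      rw [Nat.sub_zero, h1 hb] at h3
      exact not_nonempty_empty h3

theorem result (L : PeriodPair) :
    -- the dimension
    (∀ n s m : ℕ, dimH (Viol L n s m) = (2 * level L n s m : ℕ) ∧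
      level L n s m ≤ (s + 2 * n + 4 / finrank ℚ (k L) - m - 1) / 2) ∧
    -- countability
    (∀ n s m : ℕ, (Viol L n s m).Countable ↔ (1 ≤ n → Viol L (n - 1) s (m + 1) = ∅) ∧
      (1 ≤ s → Viol L n (s - 1) (m + 1) = ∅)) ∧
    -- the conjecture with bounded error
    (∀ d : ℕ, 1 ≤ d → ((∀ n s, Viol L n s (d + 1) = ∅) ↔
      ∀ n s, dimH (Viol L n s 1) ≤ (2 * (d - 1) : ℕ))) ∧
    ((∀ n s, Viol L n s 2 = ∅) ↔ ∀ n s, (Viol L n s 1).Countable) := by
  refine ⟨fun n s m => ⟨dim_eq L n s m, level_le L n s⟩, fun n s m => countable_iff,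
    fun d hd => ?_, ?_⟩
  · constructor
    · intro h n s
      rw [dim_eq]
      have h1 : level L n s 1 ≤ d - 1 := by
        by_contra hcon
        have hne : {e | ∃ b a : ℕ, b ≤ n ∧ a ≤ s ∧ b + a = e ∧
            (Viol L (n - b) (s - a) (1 + e)).Nonempty}.Nonempty := by
          by_contra h0
          rw [not_nonempty_iff_eq_empty] at h0
          apply hcon
          rw [level, h0, csSup_empty]
          exact Nat.zero_le _
        have hlev : d ∈ LevM L (GenL L) (P₂ L) P₁ (4 / finrank ℚ (kL L)) n s 1 := by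
          refine LevM_down (base L) (d := level L n s 1) (by omega) ?_
          have := Nat.sSup_mem hne (by rw [← Lev_eq]; exact LevM_bdd)
          rw [Lev_eq]
          exact this
        rw [Lev_eq] at hlev
        obtain ⟨b, a, -, -, -, h5⟩ := hlev
        rw [add_comm 1 d, h] at h5
        exact not_nonempty_empty h5
      exact_mod_cast Nat.mul_le_mul_left 2 h1
    · intro h n s
      by_contra hne
      have h1 := lower (L := L) (n := n + d) (s := s) (m := 1) (d := d)
        ⟨d, 0, by omega, Nat.zero_le _, rfl, by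
          rw [Nat.add_sub_cancel, Nat.sub_zero, add_comm 1 d]
          exact nonempty_iff_ne_empty.2 hne⟩
      have h2 := h1.trans (h (n + d) s)
      have h3 : 2 * d ≤ 2 * (d - 1) := by exact_mod_cast h2
      omega
  · constructor
    · intro h n s
      rw [countable_iff]
      exact ⟨fun _ => h _ _, fun _ => h _ _⟩
    · intro h n s
      exact (countable_iff.1 (h (n + 1) s)).1 (by omega)

end Pool.Agent.Results.MP_8da9ea_nt.DimensionFormula
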